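import Pool.Agent.WR4.Stmts

/-!
WR4, row LNG: long paths are rare.
-/

namespace Pool.Agent.WR4.H13

open Pool.Agent.WIR Pool.Agent.WR2 Pool.Agent.WR3
open scoped BigOperators Topology
open Filter

/-- numbers with few odd steps are small after `t` steps. -/
theorem lng_odd (h2 : UpbStmt) (X K t c : ℕ) (x : ℝ) (hK : 21 ≤ K) (hX1 : 2 ^ K ≤ X)
    (hX2 : X < 2 ^ (K + 1)) (ht1 : 5 * t ≤ 3 * K) (ht2 : 3 * K < 5 * t + 5) (hx1 : 1 ≤ x)
    (hx : x ^ 200 ≤ X) (hc : (c : ℝ) ≤ X * x) (hb : X ^ 19 < (T^[t] c) ^ 20) :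
    51 * t < 100 * od t c := by
  by_contra hcon
  push Not at hcon
  set l := od t c with hl
  set g := T^[t] c with hg
  have hXpos : (0 : ℝ) < X := by
    have : 0 < X := lt_of_lt_of_le (by positivity) hX1
    exact_mod_cast this
  have hXt : (2 : ℝ) ^ t ≤ X := by
    have h : 2 ^ t ≤ X := (Nat.pow_le_pow_right (by norm_num) (by omega)).trans hX1
    exact_mod_cast h
  have hXx : (X : ℝ) ≤ X * x := by
    nlinarith
  have h3 : (2 : ℝ) ^ t * g ≤ 3 ^ l * (2 * (X * x)) := by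
    have h := h2.1 t c
    have h' : (2 : ℝ) ^ t * g ≤ 3 ^ l * ((c : ℝ) + 2 ^ t) := by
      rw [hg, hl]
      exact_mod_cast h
    refine h'.trans ?_
    refine mul_le_mul_of_nonneg_left ?_ (by positivity)
    linarith
  have h4 : ((2 : ℝ) ^ t * g) ^ 200 ≤ (3 ^ l * (2 * (X * x))) ^ 200 :=
    pow_le_pow_left₀ (by positivity) h3 200
  have h5 : ((3 : ℝ) ^ l) ^ 200 ≤ 2 ^ (162 * t) := by
    have h : (3 ^ l) ^ 200 ≤ 2 ^ (162 * t) := by
      calc (3 ^ l) ^ 200 = 3 ^ (200 * l) := by rw [← pow_mul]; ring_nf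
        _ ≤ 3 ^ (102 * t) := Nat.pow_le_pow_right (by norm_num) (by omega)
        _ = (3 ^ 51) ^ (2 * t) := by rw [← pow_mul]; ring_nf
        _ ≤ (2 ^ 81) ^ (2 * t) := Nat.pow_le_pow_left (by norm_num) _
        _ = 2 ^ (162 * t) := by rw [← pow_mul]; ring_nf
    exact_mod_cast h
  have h6 : (X : ℝ) ^ 190 ≤ (g : ℝ) ^ 200 := by
    have h : X ^ 190 ≤ g ^ 200 := by
      calc X ^ 190 = (X ^ 19) ^ 10 := by rw [← pow_mul]
        _ ≤ (g ^ 20) ^ 10 := Nat.pow_le_pow_left hb.le 10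
        _ = g ^ 200 := by rw [← pow_mul]
    exact_mod_cast h
  have h7 : (2 : ℝ) ^ (200 * t) * (X : ℝ) ^ 190 ≤ 2 ^ (162 * t) * (2 ^ 200 * ((X : ℝ) ^ 201)) := by
    calc (2 : ℝ) ^ (200 * t) * (X : ℝ) ^ 190 ≤ (2 : ℝ) ^ (200 * t) * (g : ℝ) ^ 200 :=
          mul_le_mul_of_nonneg_left h6 (by positivity)
      _ = ((2 : ℝ) ^ t * g) ^ 200 := by rw [mul_pow, ← pow_mul]; ring_nf
      _ ≤ (3 ^ l * (2 * (X * x))) ^ 200 := h4
      _ = ((3 : ℝ) ^ l) ^ 200 * (2 ^ 200 * ((X : ℝ) ^ 200 * x ^ 200)) := by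
          rw [mul_pow, mul_pow, mul_pow]
      _ ≤ 2 ^ (162 * t) * (2 ^ 200 * ((X : ℝ) ^ 200 * X)) := by
          refine mul_le_mul h5 ?_ (by positivity) (by positivity)
          refine mul_le_mul_of_nonneg_left ?_ (by positivity)
          exact mul_le_mul_of_nonneg_left hx (by positivity)
      _ = 2 ^ (162 * t) * (2 ^ 200 * ((X : ℝ) ^ 201)) := by
          rw [← pow_succ]
  have h8 : (2 : ℝ) ^ (38 * t) ≤ 2 ^ 200 * (X : ℝ) ^ 11 := by
    have hp : (0 : ℝ) < 2 ^ (162 * t) * (X : ℝ) ^ 190 := by positivity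
    have e1 : (2 : ℝ) ^ (200 * t) * (X : ℝ) ^ 190
        = (2 ^ (162 * t) * (X : ℝ) ^ 190) * 2 ^ (38 * t) := by
      have : 200 * t = 162 * t + 38 * t := by ring
      rw [this, pow_add]
      ring
    have e2 : (2 : ℝ) ^ (162 * t) * (2 ^ 200 * ((X : ℝ) ^ 201))
        = (2 ^ (162 * t) * (X : ℝ) ^ 190) * (2 ^ 200 * (X : ℝ) ^ 11) := by
      have : (X : ℝ) ^ 201 = (X : ℝ) ^ 190 * (X : ℝ) ^ 11 := by rw [← pow_add]
      rw [this]
      ring
    rw [e1, e2] at h7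
    exact le_of_mul_le_mul_left h7 hp
  have h9 : (X : ℝ) ^ 11 ≤ 2 ^ (11 * K + 11) := by
    have h : X ^ 11 ≤ 2 ^ (11 * K + 11) := by
      calc X ^ 11 ≤ (2 ^ (K + 1)) ^ 11 := Nat.pow_le_pow_left hX2.le 11
        _ = 2 ^ (11 * K + 11) := by rw [← pow_mul]; ring_nf
    exact_mod_cast h
  have h10 : (2 : ℝ) ^ (38 * t) ≤ 2 ^ (11 * K + 211) := by
    calc (2 : ℝ) ^ (38 * t) ≤ 2 ^ 200 * (X : ℝ) ^ 11 := h8
      _ ≤ 2 ^ 200 * 2 ^ (11 * K + 11) := mul_le_mul_of_nonneg_left h9 (by positivity)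
      _ = 2 ^ (11 * K + 211) := by rw [← pow_add]; ring_nf
  have h11 : 38 * t ≤ 11 * K + 211 := (pow_le_pow_iff_right₀ (by norm_num)).1 h10
  omega

/-- the number of the `c ≤ Z` with `l` odd steps. -/
theorem lng_count (h2 : UpbStmt) (h3 : SmuStmt) (h4 : PrdStmt) (h6 : PreStmt) (t l : ℕ) (Z : ℝ)
    (hZ : (2 : ℝ) ^ t ≤ Z) :
    (((Finset.Icc 1 ⌊Z⌋₊).filter (fun c => od t c = l)).card : ℝ)
      ≤ 3 * (Z / 2 ^ t) * t.choose l := by
  classical
  have h2t : (0 : ℝ) < 2 ^ t := by positivity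
  have hZ0 : 0 ≤ Z := h2t.le.trans hZ
  set Y : ℝ := 3 ^ l * (Z + 2 ^ t) / 2 ^ t with hY
  have hY0 : 0 ≤ Y := by positivity
  have hsub : (Finset.Icc 1 ⌊Z⌋₊).filter (fun c => od t c = l)
      ⊆ (Finset.Icc 1 ⌊Y⌋₊).biUnion (fun g => Pre t l g) := by
    intro c hc
    rw [Finset.mem_filter, Finset.mem_Icc] at hc
    obtain ⟨⟨hc1, hc2⟩, hl⟩ := hc
    have hcZ : (c : ℝ) ≤ Z := (Nat.cast_le.2 hc2).trans (Nat.floor_le hZ0)
    rw [Finset.mem_biUnion]
    refine ⟨T^[t] c, ?_, ?_⟩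
    · rw [Finset.mem_Icc]
      constructor
      · have h := h2.2 t c
        rcases Nat.eq_zero_or_pos (T^[t] c) with h0 | h0
        · rw [h0] at h
          simp at h
          omega
        · exact h0
      · apply Nat.le_floor
        have h := h2.1 t c
        rw [hl] at h
        have h' : (2 : ℝ) ^ t * (T^[t] c : ℕ) ≤ 3 ^ l * ((c : ℝ) + 2 ^ t) := by
          exact_mod_cast h
        rw [hY, le_div_iff₀ h2t]
        have h'' : (3 : ℝ) ^ l * ((c : ℝ) + 2 ^ t) ≤ 3 ^ l * (Z + 2 ^ t) :=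
          mul_le_mul_of_nonneg_left (by linarith) (by positivity)
        linarith
    · rw [h6.1]
      exact ⟨hc1, rfl, hl⟩
  have hcard : ((Finset.Icc 1 ⌊Z⌋₊).filter (fun c => od t c = l)).card
      ≤ ∑ g ∈ Finset.Icc 1 ⌊Y⌋₊, uT t l g := by
    calc ((Finset.Icc 1 ⌊Z⌋₊).filter (fun c => od t c = l)).card
        ≤ ((Finset.Icc 1 ⌊Y⌋₊).biUnion (fun g => Pre t l g)).card := Finset.card_le_card hsub
      _ ≤ ∑ g ∈ Finset.Icc 1 ⌊Y⌋₊, (Pre t l g).card := Finset.card_biUnion_le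
      _ = ∑ g ∈ Finset.Icc 1 ⌊Y⌋₊, uT t l g := by
          refine Finset.sum_congr rfl fun g _ => ?_
          rw [h6.2.2.1]
  have hcard' : (((Finset.Icc 1 ⌊Z⌋₊).filter (fun c => od t c = l)).card : ℝ)
      ≤ ∑ g ∈ Finset.Icc 1 ⌊Y⌋₊, (uT t l g : ℝ) := by
    exact_mod_cast hcard
  have hp := (h4 l (fun g => (uT t l g : ℝ)) (fun g => Nat.cast_nonneg _)
    (fun a ha => by
      have := h3.2.1 t l a 1 ha
      rw [one_mul] at this
      simp only [this])).1 Y hY0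
  have hsum : ∑ a ∈ Finset.Icc 1 (3 ^ l), (uT t l a : ℝ) = t.choose l := by
    exact_mod_cast h3.1 t l
  rw [hsum] at hp
  have hY3 : Y / 3 ^ l + 1 ≤ 3 * (Z / 2 ^ t) := by
    have e1 : Y / 3 ^ l = Z / 2 ^ t + 1 := by
      rw [hY]
      field_simp
    rw [e1]
    have : (1 : ℝ) ≤ Z / 2 ^ t := by
      rw [le_div_iff₀ h2t]
      linarith
    linarith
  calc (((Finset.Icc 1 ⌊Z⌋₊).filter (fun c => od t c = l)).card : ℝ)
      ≤ ∑ g ∈ Finset.Icc 1 ⌊Y⌋₊, (uT t l g : ℝ) := hcard'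
    _ ≤ (Y / 3 ^ l + 1) * t.choose l := hp
    _ ≤ 3 * (Z / 2 ^ t) * t.choose l := mul_le_mul_of_nonneg_right hY3 (Nat.cast_nonneg _)

/-- the exponential beats the linear function. -/
theorem lng_exp (ε : ℝ) (hε : 0 < ε) : ∃ N : ℕ, ∀ t : ℕ, N ≤ t →
    6 * ((t : ℝ) + 1) * Real.exp (-((t : ℝ) / 5000)) ≤ ε := by
  obtain ⟨N, hN⟩ := exists_nat_gt (3000000000 / ε)
  refine ⟨N, ?_⟩
  intro t ht
  have h1 : (N : ℝ) ≤ t := by exact_mod_cast ht
  have h2 : 3000000000 / ε < (t : ℝ) + 1 := by linarith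
  rw [div_lt_iff₀ hε] at h2
  have hs0 : (0 : ℝ) ≤ (t : ℝ) + 1 := by positivity
  have h3 := Real.pow_div_factorial_le_exp (((t : ℝ) + 1) / 5000) (by positivity) 2
  have hf : ((Nat.factorial 2 : ℕ) : ℝ) = 2 := by norm_num [Nat.factorial]
  rw [hf] at h3
  have h4 : Real.exp (((t : ℝ) + 1) / 5000) = Real.exp ((t : ℝ) / 5000) * Real.exp (1 / 5000) := by
    rw [← Real.exp_add]
    congr 1
    ring
  have h5 : Real.exp (1 / 5000) ≤ 3 := by
    have := Real.exp_one_lt_d9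
    have h : Real.exp (1 / 5000) ≤ Real.exp 1 := Real.exp_le_exp.mpr (by norm_num)
    linarith
  have h6 : Real.exp (-((t : ℝ) / 5000)) * Real.exp ((t : ℝ) / 5000) = 1 := by
    rw [← Real.exp_add]
    simp
  have hE : 0 < Real.exp (-((t : ℝ) / 5000)) := Real.exp_pos _
  have hE2 : 0 < Real.exp ((t : ℝ) / 5000) := Real.exp_pos _
  have h7 : (((t : ℝ) + 1) / 5000) ^ 2 / 2 ≤ Real.exp ((t : ℝ) / 5000) * 3 := by
    rw [h4] at h3
    exact h3.trans (mul_le_mul_of_nonneg_left h5 hE2.le)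
  have h8 : ((t : ℝ) + 1) ^ 2 ≤ 150000000 * Real.exp ((t : ℝ) / 5000) := by
    have e : (((t : ℝ) + 1) / 5000) ^ 2 / 2 = ((t : ℝ) + 1) ^ 2 / 50000000 := by
      ring
    rw [e, div_le_iff₀ (by norm_num)] at h7
    linarith
  have h9 : ((t : ℝ) + 1) ^ 2 * Real.exp (-((t : ℝ) / 5000)) ≤ 150000000 := by
    calc ((t : ℝ) + 1) ^ 2 * Real.exp (-((t : ℝ) / 5000))
        ≤ (150000000 * Real.exp ((t : ℝ) / 5000)) * Real.exp (-((t : ℝ) / 5000)) :=
          mul_le_mul_of_nonneg_right h8 hE.le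
      _ = 150000000 * (Real.exp (-((t : ℝ) / 5000)) * Real.exp ((t : ℝ) / 5000)) := by ring
      _ = 150000000 := by rw [h6, mul_one]
  have hs1 : (0 : ℝ) < (t : ℝ) + 1 := by positivity
  have h10 : ((t : ℝ) + 1) * (6 * ((t : ℝ) + 1) * Real.exp (-((t : ℝ) / 5000)))
      ≤ ((t : ℝ) + 1) * ε := by
    have e : ((t : ℝ) + 1) * (6 * ((t : ℝ) + 1) * Real.exp (-((t : ℝ) / 5000)))
        = 6 * (((t : ℝ) + 1) ^ 2 * Real.exp (-((t : ℝ) / 5000))) := by ring
    rw [e]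
    linarith
  exact le_of_mul_le_mul_left h10 hs1

/-- **Row LNG**. -/
theorem lng (h1 : TmuStmt) (h2 : UpbStmt) (h3 : SmuStmt) (h4 : PrdStmt) (h5 : RmuStmt)
    (h6 : PreStmt) (h7 : HoeStmt) : LngStmt := by
  classical
  intro ε hε
  obtain ⟨N, hN⟩ := lng_exp ε hε
  refine ⟨2 ^ (2 * N + 25), ?_⟩
  intro X hX x hx1 hx
  have hXpos : 0 < X := lt_of_lt_of_le (by positivity) hX
  set K := Nat.log 2 X with hKdef
  have hX1 : 2 ^ K ≤ X := Nat.pow_log_le_self 2 hXpos.ne'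
  have hX2 : X < 2 ^ (K + 1) := Nat.lt_pow_succ_log_self (by norm_num) X
  have hKb : 2 * N + 25 ≤ K := by
    by_contra hcon
    push Not at hcon
    have h : 2 ^ (K + 1) ≤ 2 ^ (2 * N + 25) := Nat.pow_le_pow_right (by norm_num) (by omega)
    omega
  set t := 3 * K / 5 with htdef
  have ht1 : 5 * t ≤ 3 * K := by omega
  have ht2 : 3 * K < 5 * t + 5 := by omega
  have htN : N ≤ t := by omega
  have htpos : 0 < t := by omega
  have hXr : (0 : ℝ) < X := by exact_mod_cast hXpos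
  have hx0 : (0 : ℝ) < x := by linarith
  set Z : ℝ := X * x with hZdef
  have hZ0 : 0 < Z := by positivity
  have hXZ : (X : ℝ) ≤ Z := by
    rw [hZdef]
    nlinarith
  have hZt : (2 : ℝ) ^ t ≤ Z := by
    have h : 2 ^ t ≤ X := (Nat.pow_le_pow_right (by norm_num) (by omega)).trans hX1
    have h' : (2 : ℝ) ^ t ≤ X := by exact_mod_cast h
    linarith
  set I := Finset.Icc 1 ⌊Z⌋₊ with hI
  set nc : ℕ → ℕ → ℝ := fun a c =>
    (Set.ncard {τ : ℕ | t ≤ τ ∧ T^[τ] c = a ∧ (2 : ℝ) ^ τ ≤ x * 3 ^ od τ c} : ℝ) with hnc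
  -- members of TF
  have hTF : ∀ a ∈ TF X, 0 < a ∧ a ≤ X ∧ a ∈ TX X := by
    intro a ha
    unfold TF at ha
    rw [Finset.mem_filter, Finset.mem_Icc] at ha
    exact ⟨ha.1.1, ha.1.2, ha.2⟩
  -- first step
  have hs1 : ∑ a ∈ TF X, LR t a x ≤ ∑ a ∈ TF X, ∑ c ∈ I, nc a c := by
    refine Finset.sum_le_sum ?_
    intro a ha
    obtain ⟨ha0, haX, -⟩ := hTF a ha
    unfold LR
    refine Finset.sum_le_sum_of_subset_of_nonneg ?_ ?_
    · rw [hI]
      refine Finset.Icc_subset_Icc_right ?_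
      apply Nat.floor_le_floor
      rw [hZdef]
      have : (a : ℝ) ≤ X := by exact_mod_cast haX
      exact mul_le_mul_of_nonneg_right this hx0.le
    · intro c _ _
      exact Nat.cast_nonneg _
  rw [Finset.sum_comm] at hs1
  -- for fixed c
  have hs2 : ∀ c ∈ I, ∑ a ∈ TF X, nc a c ≤ if X ^ 19 < (T^[t] c) ^ 20 then (K : ℝ) else 0 := by
    intro c hc
    rw [hI, Finset.mem_Icc] at hc
    split_ifs with hbad
    · refine le_trans ?_ ((h1 X c).2.2 x)
      refine Finset.sum_le_sum ?_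
      intro a ha
      obtain ⟨ha0, haX, -⟩ := hTF a ha
      have hfin := (h5 a ha0).1 x c
      unfold mu
      simp only [hnc]
      have : Set.ncard {τ : ℕ | t ≤ τ ∧ T^[τ] c = a ∧ (2 : ℝ) ^ τ ≤ x * 3 ^ od τ c}
          ≤ Set.ncard {τ : ℕ | T^[τ] c = a ∧ (2 : ℝ) ^ τ ≤ x * 3 ^ od τ c} :=
        Set.ncard_le_ncard (fun τ hτ => ⟨hτ.2.1, hτ.2.2⟩) hfin
      exact_mod_cast this
    · refine le_of_eq ?_
      refine Finset.sum_eq_zero ?_
      intro a ha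
      obtain ⟨ha0, haX, haT⟩ := hTF a ha
      have hempty : {τ : ℕ | t ≤ τ ∧ T^[τ] c = a ∧ (2 : ℝ) ^ τ ≤ x * 3 ^ od τ c} = ∅ := by
        rw [Set.eq_empty_iff_forall_notMem]
        rintro τ ⟨hτ1, hτ2, -⟩
        have hg : 0 < T^[t] c := by
          have h := h2.2 t c
          rcases Nat.eq_zero_or_pos (T^[t] c) with h0 | h0
          · rw [h0] at h
            simp at h
            omega
          · exact h0
        have h := haT.2 (T^[t] c) (τ - t) hg (not_lt.1 hbad)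
        apply h
        rw [← Function.iterate_add_apply, Nat.sub_add_cancel hτ1]
        exact hτ2
      simp only [hnc]
      rw [hempty, Set.ncard_empty, Nat.cast_zero]
  have hs3 : ∑ a ∈ TF X, LR t a x
      ≤ K * ((I.filter (fun c => X ^ 19 < (T^[t] c) ^ 20)).card : ℝ) := by
    refine hs1.trans ((Finset.sum_le_sum hs2).trans ?_)
    rw [← Finset.sum_filter, Finset.sum_const, nsmul_eq_mul]
    linarith
  -- the count
  set L : Finset ℕ := (Finset.range (t + 1)).filter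
    (fun r : ℕ => (t : ℝ) / 50 ≤ 2 * (r : ℝ) - t) with hL
  have hsub : I.filter (fun c => X ^ 19 < (T^[t] c) ^ 20)
      ⊆ L.biUnion (fun l => I.filter (fun c => od t c = l)) := by
    intro c hc
    rw [Finset.mem_filter] at hc
    obtain ⟨hcI, hbad⟩ := hc
    have hcI' := hcI
    rw [hI, Finset.mem_Icc] at hcI'
    have hcZ : (c : ℝ) ≤ X * x := by
      have h : (c : ℝ) ≤ ⌊Z⌋₊ := by exact_mod_cast hcI'.2
      exact h.trans (Nat.floor_le hZ0.le)
    have hod := lng_odd h2 X K t c x (by omega) hX1 hX2 ht1 ht2 hx1 hx hcZ hbad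
    rw [Finset.mem_biUnion]
    refine ⟨od t c, ?_, ?_⟩
    · rw [hL, Finset.mem_filter, Finset.mem_range]
      constructor
      · have : od t c ≤ t := by
          unfold od
          calc _ ≤ (Finset.range t).card := Finset.card_filter_le _ _
            _ = t := Finset.card_range t
        omega
      · have h' : ((51 * t : ℕ) : ℝ) ≤ ((100 * od t c : ℕ) : ℝ) := by exact_mod_cast hod.le
        push_cast at h'
        linarith
    · rw [Finset.mem_filter]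
      exact ⟨hcI, rfl⟩
  have hcnt : ((I.filter (fun c => X ^ 19 < (T^[t] c) ^ 20)).card : ℝ)
      ≤ 3 * Z * Real.exp (-((t : ℝ) / 5000)) := by
    have h8 : (I.filter (fun c => X ^ 19 < (T^[t] c) ^ 20)).card
        ≤ ∑ l ∈ L, (I.filter (fun c => od t c = l)).card :=
      (Finset.card_le_card hsub).trans Finset.card_biUnion_le
    have h9 : ((I.filter (fun c => X ^ 19 < (T^[t] c) ^ 20)).card : ℝ)
        ≤ ∑ l ∈ L, ((I.filter (fun c => od t c = l)).card : ℝ) := by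
      exact_mod_cast h8
    have h10 : ∑ l ∈ L, ((I.filter (fun c => od t c = l)).card : ℝ)
        ≤ ∑ l ∈ L, 3 * (Z / 2 ^ t) * (t.choose l : ℝ) :=
      Finset.sum_le_sum fun l _ => lng_count h2 h3 h4 h6 t l Z hZt
    rw [← Finset.mul_sum] at h10
    have hhoe := (h7 t ((t : ℝ) / 50) htpos (by positivity)).1
    have htr : (0 : ℝ) < t := by exact_mod_cast htpos
    have hexp : -(((t : ℝ) / 50) ^ 2 / (2 * t)) = -((t : ℝ) / 5000) := by
      field_simp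
      norm_num
    rw [hexp] at hhoe
    have h11 : 3 * (Z / 2 ^ t) * ∑ l ∈ L, (t.choose l : ℝ)
        ≤ 3 * (Z / 2 ^ t) * (2 ^ t * Real.exp (-((t : ℝ) / 5000))) :=
      mul_le_mul_of_nonneg_left hhoe (by positivity)
    have e : 3 * (Z / 2 ^ t) * (2 ^ t * Real.exp (-((t : ℝ) / 5000)))
        = 3 * Z * Real.exp (-((t : ℝ) / 5000)) := by
      field_simp
    linarith
  have hKt : (K : ℝ) ≤ 2 * ((t : ℝ) + 1) := by
    have h : K ≤ 2 * (t + 1) := by omega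
    exact_mod_cast h
  have hE : 0 < Real.exp (-((t : ℝ) / 5000)) := Real.exp_pos _
  calc ∑ a ∈ TF X, LR t a x
      ≤ K * ((I.filter (fun c => X ^ 19 < (T^[t] c) ^ 20)).card : ℝ) := hs3
    _ ≤ K * (3 * Z * Real.exp (-((t : ℝ) / 5000))) :=
        mul_le_mul_of_nonneg_left hcnt (Nat.cast_nonneg _)
    _ ≤ (2 * ((t : ℝ) + 1)) * (3 * Z * Real.exp (-((t : ℝ) / 5000))) :=
        mul_le_mul_of_nonneg_right hKt (by positivity)
    _ = (6 * ((t : ℝ) + 1) * Real.exp (-((t : ℝ) / 5000))) * Z := by ring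
    _ ≤ ε * Z := mul_le_mul_of_nonneg_right (hN t htN) hZ0.le
    _ = ε * X * x := by rw [hZdef]; ring

end Pool.Agent.WR4.H13
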