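import Pool.Agent.WR4.Stmts

/-!
WR4, row SYR: the limit of the word counts is the distribution of the Syracuse random variable. The first
part (words, shift, recursion CNR) is copied from Pool/Agent/Helper2_WIR/CDR.lean and
Pool/Agent/Helper33_WR2/CNR.lean.
-/

namespace Pool.Agent.WR4.H13

open Pool.Agent.WIR Pool.Agent.WR2 Pool.Agent.WR3
open scoped BigOperators Topology
open Filter

/-- the shift of positions. -/
def sh : ℕ ↪ ℕ := addRightEmbedding 1

theorem sh_apply (p : ℕ) : sh p = p + 1 := rfl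

theorem rk_sh (u : Finset ℕ) (p : ℕ) : rk (u.map sh) (p + 1) = rk u p := by
  unfold rk
  rw [Finset.filter_map, Finset.card_map]
  congr 1
  refine Finset.filter_congr ?_
  intro x _
  simp [sh_apply]

theorem one_notMem_sh (u : Finset ℕ) (hu : ∀ x ∈ u, 1 ≤ x) : 1 ∉ u.map sh := by
  intro h
  rw [Finset.mem_map] at h
  obtain ⟨x, hx, h⟩ := h
  have := hu x hx
  rw [sh_apply] at h
  omega

theorem rk_ins_sh (u : Finset ℕ) (hu : ∀ x ∈ u, 1 ≤ x) (p : ℕ) (hp : 1 ≤ p) :
    rk (insert 1 (u.map sh)) (p + 1) = rk u p + 1 := by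
  unfold rk
  rw [Finset.filter_insert, if_pos (by omega), Finset.card_insert_of_notMem]
  · congr 1
    exact rk_sh u p
  · intro h
    exact one_notMem_sh u hu (Finset.mem_filter.1 h).1

theorem rk_ins_one (u : Finset ℕ) :
    rk (insert 1 (u.map sh)) 1 = 0 := by
  unfold rk
  rw [Finset.card_eq_zero, Finset.filter_eq_empty_iff]
  intro x hx
  rw [Finset.mem_insert, Finset.mem_map] at hx
  rcases hx with rfl | ⟨y, hy, rfl⟩
  · omega
  · rw [sh_apply]; omega

theorem FO_sh (N : ℕ) (u : Finset ℕ) :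
    FO N (u.map sh) = (2 : ZMod (3 ^ N))⁻¹ * FO N u := by
  unfold FO
  rw [Finset.sum_map, Finset.mul_sum]
  refine Finset.sum_congr rfl ?_
  intro p _
  rw [sh_apply, rk_sh, pow_succ]
  ring

theorem FO_ins (N : ℕ) (u : Finset ℕ) (hu : ∀ x ∈ u, 1 ≤ x) :
    FO N (insert 1 (u.map sh)) = (2 : ZMod (3 ^ N))⁻¹ + 3 * (2 : ZMod (3 ^ N))⁻¹ * FO N u := by
  unfold FO
  rw [Finset.sum_insert (one_notMem_sh u hu), rk_ins_one u, pow_zero, one_mul, pow_one,
    Finset.sum_map, Finset.mul_sum]
  congr 1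
  refine Finset.sum_congr rfl ?_
  intro p hp
  rw [sh_apply, rk_ins_sh u hu p (hu p hp), pow_succ, pow_succ]
  ring

theorem two_mul_inv (N : ℕ) : (2 : ZMod (3 ^ N)) * (2 : ZMod (3 ^ N))⁻¹ = 1 := by
  have h : Nat.Coprime 2 (3 ^ N) := Nat.Coprime.pow_right N (by norm_num)
  have := ZMod.coe_mul_inv_eq_one 2 h
  exact_mod_cast this

theorem half_eq_iff (N : ℕ) (x y : ZMod (3 ^ N)) :
    (2 : ZMod (3 ^ N))⁻¹ * x = y ↔ x = 2 * y := by
  constructor
  · rintro rfl
    rw [← mul_assoc, two_mul_inv, one_mul]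
  · rintro rfl
    rw [← mul_assoc, mul_comm (2 : ZMod (3 ^ N))⁻¹, two_mul_inv, one_mul]

/-- `3 z = b` in `Z/3^(l+1)`. -/
theorem three_mul_eq (l b : ℕ) (z : ZMod (3 ^ (l + 1))) :
    3 * z = ((b : ℕ) : ZMod (3 ^ (l + 1))) ↔
      3 ∣ b ∧ ZMod.castHom (pow_dvd_pow 3 l.le_succ) (ZMod (3 ^ l)) z
        = ((b / 3 : ℕ) : ZMod (3 ^ l)) := by
  obtain ⟨m, rfl⟩ : ∃ m : ℕ, z = (m : ZMod (3 ^ (l + 1))) := ⟨z.val, by simp⟩
  have e1 : (3 : ZMod (3 ^ (l + 1))) * (m : ZMod (3 ^ (l + 1)))
      = ((3 * m : ℕ) : ZMod (3 ^ (l + 1))) := by push_cast; ring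
  have e2 : ZMod.castHom (pow_dvd_pow 3 l.le_succ) (ZMod (3 ^ l)) (m : ZMod (3 ^ (l + 1)))
      = (m : ZMod (3 ^ l)) := by simp
  rw [e1, e2, ZMod.natCast_eq_natCast_iff, ZMod.natCast_eq_natCast_iff]
  constructor
  · intro h
    have h3 : 3 ∣ b := by
      have h4 : 3 * m ≡ b [MOD 3] := Nat.ModEq.of_dvd (dvd_pow_self 3 (Nat.succ_ne_zero l)) h
      exact (Nat.modEq_zero_iff_dvd.1 (h4.symm.trans (Nat.modEq_zero_iff_dvd.2 (dvd_mul_right 3 m))))
    obtain ⟨c, rfl⟩ := h3
    refine ⟨dvd_mul_right 3 c, ?_⟩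
    have h5 : 3 * c / 3 = c := Nat.mul_div_cancel_left c (by norm_num)
    rw [h5]
    have h6 : 3 * m ≡ 3 * c [MOD 3 * 3 ^ l] := by
      have : 3 ^ (l + 1) = 3 * 3 ^ l := by ring
      rw [← this]
      exact h
    exact Nat.ModEq.mul_left_cancel' (by norm_num) h6
  · rintro ⟨⟨c, rfl⟩, h⟩
    have h5 : 3 * c / 3 = c := Nat.mul_div_cancel_left c (by norm_num)
    rw [h5] at h
    have h6 := Nat.ModEq.mul_left' 3 h
    have : 3 ^ (l + 1) = 3 * 3 ^ l := by ring
    rw [this]
    exact h6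

theorem cast_FO (l : ℕ) (u : Finset ℕ) :
    ZMod.castHom (pow_dvd_pow 3 l.le_succ) (ZMod (3 ^ l)) (FO (l + 1) u) = FO l u := by
  have h2 : ZMod.castHom (pow_dvd_pow 3 l.le_succ) (ZMod (3 ^ l)) ((2 : ZMod (3 ^ (l + 1)))⁻¹)
      = (2 : ZMod (3 ^ l))⁻¹ := by
    have h3 := congrArg (ZMod.castHom (pow_dvd_pow 3 l.le_succ) (ZMod (3 ^ l)))
      (two_mul_inv (l + 1))
    rw [map_mul, map_one, map_ofNat] at h3
    have h4 := (half_eq_iff l 1 (ZMod.castHom (pow_dvd_pow 3 l.le_succ) (ZMod (3 ^ l))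
      ((2 : ZMod (3 ^ (l + 1)))⁻¹))).2 h3.symm
    rw [mul_one] at h4
    exact h4.symm
  unfold FO
  rw [map_sum]
  refine Finset.sum_congr rfl ?_
  intro p _
  rw [map_mul, map_pow, map_pow, h2, map_ofNat]

theorem Icc_succ_eq (M : ℕ) : Finset.Icc 1 (M + 1) = insert 1 ((Finset.Icc 1 M).map sh) := by
  ext x
  simp only [Finset.mem_Icc, Finset.mem_insert, Finset.mem_map]
  constructor
  · rintro ⟨h1, h2⟩
    by_cases hx : x = 1
    · exact Or.inl hx
    · exact Or.inr ⟨x - 1, ⟨by omega, by omega⟩, by rw [sh_apply]; omega⟩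
  · rintro (rfl | ⟨y, ⟨h1, h2⟩, rfl⟩)
    · omega
    · rw [sh_apply]; omega

theorem cnt_gen (M N : ℕ) (S : Set ℕ) (x : ZMod (3 ^ N)) [DecidablePred (fun O : Finset ℕ =>
      O.card ∈ S ∧ FO N O = x)] :
    cnt M S N x = ((Finset.Icc 1 M).powerset.filter
      (fun O => O.card ∈ S ∧ FO N O = x)).card := by
  unfold cnt
  refine congrArg Finset.card ?_
  ext O
  simp only [Finset.mem_filter]

/-- row CNR of WR2 (copy of Pool/Agent/Helper33_WR2/CNR.lean). -/
theorem cnr : CnrStmt := by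
  classical
  intro l M a S ha
  have hpos : ∀ u : Finset ℕ, u ⊆ Finset.Icc 1 M → ∀ x ∈ u, 1 ≤ x := by
    intro u hu x hx
    exact (Finset.mem_Icc.1 (hu hx)).1
  have hsplit : cnt (M + 1) S (l + 1) ((a : ℕ) : ZMod (3 ^ (l + 1)))
      = cnt M S (l + 1) ((2 * a : ℕ) : ZMod (3 ^ (l + 1)))
      + ((Finset.Icc 1 M).powerset.filter (fun O => O.card + 1 ∈ S ∧
          3 * FO (l + 1) O = ((2 * a - 1 : ℕ) : ZMod (3 ^ (l + 1))))).card := by
    rw [cnt_gen, cnt_gen]
    have hset : (Finset.Icc 1 (M + 1)).powerset.filter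
        (fun O => O.card ∈ S ∧ FO (l + 1) O = ((a : ℕ) : ZMod (3 ^ (l + 1))))
        = ((Finset.Icc 1 M).powerset.filter
            (fun O => O.card ∈ S ∧
              FO (l + 1) O = ((2 * a : ℕ) : ZMod (3 ^ (l + 1))))).image (fun u => u.map sh)
          ∪ ((Finset.Icc 1 M).powerset.filter (fun O => O.card + 1 ∈ S ∧
              3 * FO (l + 1) O = ((2 * a - 1 : ℕ) : ZMod (3 ^ (l + 1))))).image
              (fun u => insert 1 (u.map sh)) := by
      have hA : ∀ u : Finset ℕ, FO (l + 1) (u.map sh) = ((a : ℕ) : ZMod (3 ^ (l + 1))) ↔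
          FO (l + 1) u = ((2 * a : ℕ) : ZMod (3 ^ (l + 1))) := by
        intro u
        rw [FO_sh, half_eq_iff]
        push_cast
        rfl
      have hB : ∀ u : Finset ℕ, (∀ x ∈ u, 1 ≤ x) →
          (FO (l + 1) (insert 1 (u.map sh)) = ((a : ℕ) : ZMod (3 ^ (l + 1))) ↔
            3 * FO (l + 1) u = ((2 * a - 1 : ℕ) : ZMod (3 ^ (l + 1)))) := by
        intro u hu
        rw [FO_ins _ u hu]
        have e1 : (2 : ZMod (3 ^ (l + 1)))⁻¹ + 3 * (2 : ZMod (3 ^ (l + 1)))⁻¹ * FO (l + 1) u
            = (2 : ZMod (3 ^ (l + 1)))⁻¹ * (1 + 3 * FO (l + 1) u) := by ring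
        rw [e1, half_eq_iff]
        have e2 : ((2 * a - 1 : ℕ) : ZMod (3 ^ (l + 1)))
            = 2 * ((a : ℕ) : ZMod (3 ^ (l + 1))) - 1 := by
          rw [Nat.cast_sub (by omega)]
          push_cast
          rfl
        rw [e2]
        constructor
        · intro h; rw [← h]; ring
        · intro h; rw [h]; ring
      ext O
      rw [Finset.mem_union, Finset.mem_image, Finset.mem_image, Finset.mem_filter,
        Finset.mem_powerset]
      constructor
      · rintro ⟨hO, hc, hF⟩
        by_cases h1 : 1 ∈ O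
        · right
          have hsub : O.erase 1 ⊆ (Finset.Icc 1 M).map sh := by
            rw [Icc_succ_eq] at hO
            intro x hx
            rw [Finset.mem_erase] at hx
            exact (Finset.mem_insert.1 (hO hx.2)).resolve_left hx.1
          obtain ⟨u, hu, hOu⟩ := Finset.subset_map_iff.1 hsub
          have hO' : O = insert 1 (u.map sh) := by
            rw [← hOu, Finset.insert_erase h1]
          refine ⟨u, ?_, hO'.symm⟩
          rw [Finset.mem_filter, Finset.mem_powerset]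
          refine ⟨hu, ?_, ?_⟩
          · rw [hO', Finset.card_insert_of_notMem (one_notMem_sh u (hpos u hu)),
              Finset.card_map] at hc
            exact hc
          · rw [hO'] at hF
            exact (hB u (hpos u hu)).1 hF
        · left
          have hsub : O ⊆ (Finset.Icc 1 M).map sh := by
            rw [Icc_succ_eq] at hO
            intro x hx
            refine (Finset.mem_insert.1 (hO hx)).resolve_left ?_
            rintro rfl
            exact h1 hx
          obtain ⟨u, hu, hOu⟩ := Finset.subset_map_iff.1 hsub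
          refine ⟨u, ?_, hOu.symm⟩
          rw [Finset.mem_filter, Finset.mem_powerset]
          refine ⟨hu, ?_, ?_⟩
          · rw [hOu, Finset.card_map] at hc
            exact hc
          · rw [hOu] at hF
            exact (hA u).1 hF
      · rintro (⟨u, hu, rfl⟩ | ⟨u, hu, rfl⟩)
        · rw [Finset.mem_filter, Finset.mem_powerset] at hu
          refine ⟨?_, ?_, (hA u).2 hu.2.2⟩
          · rw [Icc_succ_eq]
            exact (Finset.map_subset_map.2 hu.1).trans (Finset.subset_insert _ _)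
          · rw [Finset.card_map]
            exact hu.2.1
        · rw [Finset.mem_filter, Finset.mem_powerset] at hu
          refine ⟨?_, ?_, (hB u (hpos u hu.1)).2 hu.2.2⟩
          · rw [Icc_succ_eq]
            exact Finset.insert_subset_insert _ (Finset.map_subset_map.2 hu.1)
          · rw [Finset.card_insert_of_notMem (one_notMem_sh u (hpos u hu.1)), Finset.card_map]
            exact hu.2.1
    rw [hset, Finset.card_union_of_disjoint, Finset.card_image_of_injOn,
      Finset.card_image_of_injOn]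
    · intro u hu v hv huv
      rw [Finset.mem_coe, Finset.mem_filter, Finset.mem_powerset] at hu hv
      simp only at huv
      have e1 : (insert 1 (u.map sh)).erase 1 = (insert 1 (v.map sh)).erase 1 := by rw [huv]
      rw [Finset.erase_insert (one_notMem_sh u (hpos u hu.1)),
        Finset.erase_insert (one_notMem_sh v (hpos v hv.1))] at e1
      exact Finset.map_injective sh e1
    · intro u _ v _ huv
      exact Finset.map_injective sh huv
    · rw [Finset.disjoint_left]
      intro O hO1 hO2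
      rw [Finset.mem_image] at hO1 hO2
      obtain ⟨u, hu, rfl⟩ := hO1
      obtain ⟨v, _, hv⟩ := hO2
      rw [Finset.mem_filter, Finset.mem_powerset] at hu
      apply one_notMem_sh u (hpos u hu.1)
      rw [← hv]
      exact Finset.mem_insert_self _ _
  rw [hsplit]
  congr 1
  by_cases h3 : 3 ∣ 2 * a - 1
  · rw [if_pos h3]
    rw [cnt_gen]
    congr 1
    refine Finset.filter_congr ?_
    intro O _
    rw [three_mul_eq, cast_FO]
    constructor
    · rintro ⟨h4, _, h5⟩
      exact ⟨h4, h5⟩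
    · rintro ⟨h4, h5⟩
      exact ⟨h4, h3, h5⟩
  · rw [if_neg h3, Finset.card_eq_zero, Finset.filter_eq_empty_iff]
    rintro O _ ⟨_, h5⟩
    exact h3 ((three_mul_eq _ _ _).1 h5).1

theorem syr_rec (n : ℕ) (g : ZMod (3 ^ n) → ℝ) (z : ZMod (3 ^ (n + 1))) :
    ∃ a : ℕ, 0 < a ∧ ((a : ℕ) : ZMod (3 ^ (n + 1))) = z ∧
      (∑ y : ZMod (3 ^ n), if 2 * z = 3 * ((y.val : ℕ) : ZMod (3 ^ (n + 1))) + 1 then g y else 0)
        = if 3 ∣ 2 * a - 1 then g (((2 * a - 1) / 3 : ℕ) : ZMod (3 ^ n)) else 0 := by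
  classical
  refine ⟨z.val + 3 ^ (n + 1), by positivity, by simp, ?_⟩
  set a : ℕ := z.val + 3 ^ (n + 1) with ha
  have haz : ((a : ℕ) : ZMod (3 ^ (n + 1))) = z := by
    rw [ha]
    simp
  have hapos : 0 < a := by
    rw [ha]
    positivity
  have hcond : ∀ y : ZMod (3 ^ n),
      (2 * z = 3 * ((y.val : ℕ) : ZMod (3 ^ (n + 1))) + 1) ↔
        (3 ∣ 2 * a - 1 ∧ y = (((2 * a - 1) / 3 : ℕ) : ZMod (3 ^ n))) := by
    intro y
    have e2 : ((2 * a - 1 : ℕ) : ZMod (3 ^ (n + 1))) = 2 * z - 1 := by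
      rw [Nat.cast_sub (by omega)]
      push_cast
      rw [haz]
    have h := three_mul_eq n (2 * a - 1) ((y.val : ℕ) : ZMod (3 ^ (n + 1)))
    have hy : ZMod.castHom (pow_dvd_pow 3 n.le_succ) (ZMod (3 ^ n))
        ((y.val : ℕ) : ZMod (3 ^ (n + 1))) = y := by
      rw [map_natCast]
      exact ZMod.natCast_zmod_val y
    rw [hy, e2] at h
    rw [← h]
    constructor
    · intro h1
      rw [h1]
      ring
    · intro h1
      rw [h1]
      ring
  by_cases h3 : 3 ∣ 2 * a - 1
  · rw [if_pos h3]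
    have : ∀ y : ZMod (3 ^ n),
        (if 2 * z = 3 * ((y.val : ℕ) : ZMod (3 ^ (n + 1))) + 1 then g y else 0)
          = if y = (((2 * a - 1) / 3 : ℕ) : ZMod (3 ^ n)) then g y else 0 := by
      intro y
      by_cases h : y = (((2 * a - 1) / 3 : ℕ) : ZMod (3 ^ n))
      · rw [if_pos h, if_pos ((hcond y).2 ⟨h3, h⟩)]
      · rw [if_neg h, if_neg (fun h' => h ((hcond y).1 h').2)]
    rw [Finset.sum_congr rfl (fun y _ => this y)]
    rw [Finset.sum_ite_eq' Finset.univ]
    simp
  · rw [if_neg h3]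
    refine Finset.sum_eq_zero ?_
    intro y _
    rw [if_neg (fun h' => h3 ((hcond y).1 h').1)]

/-- **Row SYR**. -/
theorem syr (h : SyfStmt) : SyrStmt := by
  classical
  intro n
  induction n with
  | zero =>
    intro z
    have h1 : ∀ M : ℕ, (cnt M (Set.Ici 0) 0 z : ℝ) / 2 ^ M = 1 := by
      intro M
      have hsub : Subsingleton (ZMod (3 ^ 0)) := by
        rw [pow_zero]
        infer_instance
      have h2 : cnt M (Set.Ici 0) 0 z = 2 ^ M := by
        rw [cnt_gen]
        rw [Finset.filter_true_of_mem]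
        · rw [Finset.card_powerset, Nat.card_Icc, Nat.add_sub_cancel]
        · intro O _
          exact ⟨Nat.zero_le _, Subsingleton.elim _ _⟩
      rw [h2]
      push_cast
      exact div_self (by positivity)
    have h2 : Sy 0 z = 1 := rfl
    rw [h2]
    exact tendsto_const_nhds.congr (fun M => (h1 M).symm)
  | succ n ih =>
    -- the recursion
    set A : ℕ → ZMod (3 ^ (n + 1)) → ℝ := fun M z => (cnt M (Set.Ici (n + 1)) (n + 1) z : ℝ) / 2 ^ M
      with hA
    set B : ℕ → ZMod (3 ^ n) → ℝ := fun M y => (cnt M (Set.Ici n) n y : ℝ) / 2 ^ M with hB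
    have hrec : ∀ (M : ℕ) (z : ZMod (3 ^ (n + 1))), A (M + 1) z =
        ((∑ y : ZMod (3 ^ n), if 2 * z = 3 * ((y.val : ℕ) : ZMod (3 ^ (n + 1))) + 1
          then B M y else 0) + A M (2 * z)) / 2 := by
      intro M z
      obtain ⟨a, ha, haz, hs⟩ := syr_rec n (B M) z
      have hc := cnr n M a (Set.Ici (n + 1)) ha
      have hS : {i | i + 1 ∈ Set.Ici (n + 1)} = Set.Ici n := by
        ext i
        simp
      rw [hS] at hc
      have h2 : ((2 * a : ℕ) : ZMod (3 ^ (n + 1))) = 2 * z := by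
        push_cast
        rw [haz]
      rw [haz, h2] at hc
      rw [hs]
      simp only [hA, hB]
      rw [hc]
      by_cases h3 : 3 ∣ 2 * a - 1
      · rw [if_pos h3, if_pos h3]
        push_cast
        field_simp
        ring
      · rw [if_neg h3, if_neg h3]
        push_cast
        field_simp
        ring
    -- the distance
    have hD : Tendsto (fun M : ℕ => ∑ y : ZMod (3 ^ n), |B M y - Sy n y|) atTop (𝓝 0) := by
      have h1 : Tendsto (fun M : ℕ => ∑ y : ZMod (3 ^ n), |B M y - Sy n y|) atTop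
          (𝓝 (∑ y : ZMod (3 ^ n), 0)) := by
        refine tendsto_finsetSum _ ?_
        intro y _
        have h2 := (ih y).sub_const (Sy n y)
        rw [sub_self] at h2
        have h3 := h2.abs
        rw [abs_zero] at h3
        exact h3
      simpa using h1
    have hstep : ∀ (M : ℕ) (z : ZMod (3 ^ (n + 1))), |A (M + 1) z - Sy (n + 1) z| ≤
        ((∑ y : ZMod (3 ^ n), |B M y - Sy n y|) + |A M (2 * z) - Sy (n + 1) (2 * z)|) / 2 := by
      intro M z
      rw [hrec M z, h.2 n z]
      have e1 : ((∑ y : ZMod (3 ^ n), if 2 * z = 3 * ((y.val : ℕ) : ZMod (3 ^ (n + 1))) + 1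
          then B M y else 0) + A M (2 * z)) / 2 -
          ((∑ y : ZMod (3 ^ n), if 2 * z = 3 * ((y.val : ℕ) : ZMod (3 ^ (n + 1))) + 1
          then Sy n y else 0) + Sy (n + 1) (2 * z)) / 2
          = ((∑ y : ZMod (3 ^ n), if 2 * z = 3 * ((y.val : ℕ) : ZMod (3 ^ (n + 1))) + 1
          then (B M y - Sy n y) else 0) + (A M (2 * z) - Sy (n + 1) (2 * z))) / 2 := by
        have e2 : (∑ y : ZMod (3 ^ n), if 2 * z = 3 * ((y.val : ℕ) : ZMod (3 ^ (n + 1))) + 1
            then (B M y - Sy n y) else 0)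
            = (∑ y : ZMod (3 ^ n), if 2 * z = 3 * ((y.val : ℕ) : ZMod (3 ^ (n + 1))) + 1
            then B M y else 0) - (∑ y : ZMod (3 ^ n),
              if 2 * z = 3 * ((y.val : ℕ) : ZMod (3 ^ (n + 1))) + 1 then Sy n y else 0) := by
          rw [← Finset.sum_sub_distrib]
          refine Finset.sum_congr rfl ?_
          intro y _
          split_ifs <;> ring
        rw [e2]
        ring
      rw [e1, abs_div, abs_of_pos (by norm_num : (0 : ℝ) < 2)]
      refine div_le_div_of_nonneg_right ?_ (by norm_num)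
      refine (abs_add_le _ _).trans ?_
      refine add_le_add ?_ le_rfl
      refine (Finset.abs_sum_le_sum_abs _ _).trans ?_
      refine Finset.sum_le_sum ?_
      intro y _
      split_ifs
      · exact le_rfl
      · rw [abs_zero]
        exact abs_nonneg _
    intro z
    rw [Metric.tendsto_atTop]
    intro ε hε
    obtain ⟨M0, hM0⟩ := (Metric.tendsto_atTop.1 hD) (ε / 2) (by positivity)
    set C : ℝ := ∑ z : ZMod (3 ^ (n + 1)), |A M0 z - Sy (n + 1) z| with hC
    have hC0 : 0 ≤ C := Finset.sum_nonneg (fun z _ => abs_nonneg _)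
    have hk : ∀ (k : ℕ) (z : ZMod (3 ^ (n + 1))),
        |A (M0 + k) z - Sy (n + 1) z| ≤ ε / 2 + C / 2 ^ k := by
      intro k
      induction k with
      | zero =>
        intro z
        have h1 : |A M0 z - Sy (n + 1) z| ≤ C :=
          Finset.single_le_sum (f := fun z => |A M0 z - Sy (n + 1) z|)
            (fun z _ => abs_nonneg _) (Finset.mem_univ z)
        have h2 : ε / 2 + C / 2 ^ 0 = ε / 2 + C := by simp
        rw [h2, Nat.add_zero]
        linarith
      | succ k ihk =>
        intro z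
        have h1 := hstep (M0 + k) z
        have h2 := ihk (2 * z)
        have h3 := hM0 (M0 + k) (by omega)
        rw [Real.dist_eq, sub_zero] at h3
        have h4 := (le_abs_self _).trans h3.le
        have h5 : C / 2 ^ (k + 1) = (C / 2 ^ k) / 2 := by
          rw [pow_succ]
          field_simp
        rw [← Nat.add_assoc, h5]
        linarith
    have hlim : Tendsto (fun k : ℕ => C / 2 ^ k) atTop (𝓝 0) := by
      have h1 : Tendsto (fun k : ℕ => C * (1 / 2 : ℝ) ^ k) atTop (𝓝 (C * 0)) :=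
        (tendsto_pow_atTop_nhds_zero_of_lt_one (by norm_num) (by norm_num)).const_mul C
      rw [mul_zero] at h1
      refine h1.congr ?_
      intro k
      rw [one_div, inv_pow]
      rfl
    obtain ⟨k0, hk0⟩ := (Metric.tendsto_atTop.1 hlim) (ε / 2) (by positivity)
    refine ⟨M0 + k0, ?_⟩
    intro M hM
    obtain ⟨k, rfl⟩ : ∃ k, M = M0 + k := ⟨M - M0, by omega⟩
    have h1 := hk k z
    have h2 := hk0 k (by omega)
    rw [Real.dist_eq, sub_zero] at h2
    have h3 := (le_abs_self _).trans_lt h2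
    rw [Real.dist_eq]
    change |A (M0 + k) z - Sy (n + 1) z| < ε
    linarith

end Pool.Agent.WR4.H13
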